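import Pool.Agent.NilExt.Nil

/-!
# Groups with nil augmentation ideal and extensions
-/

open scoped Pointwise

namespace Pool.Agent.NilExt

open Pool.Agent.NilAm

/-- the normal subgroup generated by the commutators and the `p`-th powers of elements of `R` -/
def EE {F : Type*} [Group F] (p : ℕ) (R : Subgroup F) : Subgroup F :=
  Subgroup.normalClosure ({x | ∃ a ∈ R, ∃ b ∈ R, x = a * b * a⁻¹ * b⁻¹} ∪ {x | ∃ a ∈ R, x = a ^ p})

instance {F : Type*} [Group F] (p : ℕ) (R : Subgroup F) : (EE p R).Normal :=
  Subgroup.normalClosure_normal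

theorem EE_le {F : Type*} [Group F] (p : ℕ) (R : Subgroup F) [R.Normal] : EE p R ≤ R := by
  refine Subgroup.normalClosure_le_normal ?_
  rintro x (⟨a, ha, b, hb, rfl⟩ | ⟨a, ha, rfl⟩)
  · exact mul_mem (mul_mem (mul_mem ha hb) (inv_mem ha)) (inv_mem hb)
  · exact pow_mem ha p

theorem EE_comm {F : Type*} [Group F] (p : ℕ) (R : Subgroup F) {a b : F} (ha : a ∈ R)
    (hb : b ∈ R) : a * b * a⁻¹ * b⁻¹ ∈ EE p R :=
  Subgroup.subset_normalClosure (Or.inl ⟨a, ha, b, hb, rfl⟩)

theorem EE_pow {F : Type*} [Group F] (p : ℕ) (R : Subgroup F) {a : F} (ha : a ∈ R) :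
    a ^ p ∈ EE p R :=
  Subgroup.subset_normalClosure (Or.inr ⟨a, ha, rfl⟩)

/-- the sum of finitely many group elements minus their number lies in the augmentation ideal -/
theorem XX_sub_mem {K G ι : Type*} [Field K] [Group G] [Fintype ι] (y : ι → G) :
    XX K y - algebraMap K (MonoidAlgebra K G) (Fintype.card ι) ∈ augIdeal K G := by
  have : XX K y - algebraMap K (MonoidAlgebra K G) (Fintype.card ι) =
      ∑ i, (MonoidAlgebra.of K G (y i) - 1) := by
    rw [Finset.sum_sub_distrib]
    congr 1
    rw [Finset.sum_const, map_natCast, nsmul_eq_mul, mul_one, Finset.card_univ]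
  rw [this]
  exact Ideal.sum_mem _ fun i _ => of_sub_one_mem _

/-- wreath products with an infinite finitely generated top group -/
theorem wreath_not_nil (K : Type*) [Field K] {D H : Type*} [Group D] [Group H] [Nontrivial D]
    [Infinite H] [Group.FG H] : ¬ Nil K (D ≀ᵣ H) := by
  classical
  intro hnil
  obtain ⟨c, hc⟩ := exists_ne (1 : D)
  obtain ⟨S, hS⟩ := Group.fg_def.1 (inferInstance : Group.FG H)
  have hcl : Subgroup.closure (Set.range (Subtype.val : S → H)) = ⊤ := by
    rw [Subtype.range_coe_subtype]
    exact hS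
  exact not_nilpotent K hc Subtype.val_injective hcl (hnil _ (XX_sub_mem _))

/-- the largest extension of an infinite finitely generated group by an elementary abelian `p`-group
generated by the same number of elements -/
theorem magnus_not_nil (K : Type*) [Field K] (p : ℕ) [Fact p.Prime] (k : ℕ)
    (R : Subgroup (FreeGroup (Fin k))) [R.Normal] [Infinite (FreeGroup (Fin k) ⧸ R)] :
    ¬ Nil K (FreeGroup (Fin k) ⧸ EE p R) := by
  classical
  intro hnil
  set Q := FreeGroup (Fin k) ⧸ R
  have hp : Nontrivial (Multiplicative (ZMod p)) := by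
    have : Nontrivial (ZMod p) := ZMod.nontrivial p
    infer_instance
  obtain ⟨c, hc⟩ := exists_ne (1 : Multiplicative (ZMod p))
  set x : Fin k → Q := fun i => QuotientGroup.mk' R (FreeGroup.of i) with hx
  -- the alphabet: the distinct images of the generators
  set s : Set.range x → Q := Subtype.val with hs
  have hcl : Subgroup.closure (Set.range s) = ⊤ := by
    rw [hs, Subtype.range_coe_subtype]
    change Subgroup.closure (Set.range x) = ⊤
    have h1 : Set.range x = (QuotientGroup.mk' R) '' (Set.range FreeGroup.of) := by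
      rw [← Set.range_comp]
      rfl
    rw [h1, ← MonoidHom.map_closure, FreeGroup.closure_range_of, ← MonoidHom.range_eq_map,
      MonoidHom.range_eq_top]
    exact QuotientGroup.mk'_surjective R
  have hfin : Fintype (Set.range x) := Fintype.ofFinite _
  refine not_nilpotent K hc (s := s) Subtype.val_injective hcl ?_
  -- the map of the free group to the wreath product
  let φ : FreeGroup (Fin k) →* Multiplicative (ZMod p) ≀ᵣ Q :=
    FreeGroup.lift (yy c x)
  have hφr : ∀ w, (φ w).right = QuotientGroup.mk' R w := by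
    have : (RegularWreathProduct.rightHom.comp φ) = QuotientGroup.mk' R := by
      refine FreeGroup.ext_hom _ _ fun i => ?_
      simp [φ]
      rfl
    intro w
    exact DFunLike.congr_fun this w
  have hφ1 : ∀ w ∈ R, (φ w).right = 1 := by
    intro w hw
    rw [hφr]
    exact (QuotientGroup.eq_one_iff w).2 hw
  have hker : EE p R ≤ φ.ker := by
    refine Subgroup.normalClosure_le_normal ?_
    rintro y (⟨a, ha, b, hb, rfl⟩ | ⟨a, ha, rfl⟩)
    · rw [SetLike.mem_coe, MonoidHom.mem_ker, map_mul, map_mul, map_mul, map_inv, map_inv,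
        mul_inv_eq_one, mul_inv_eq_iff_eq_mul]
      ext z
      · simp [RegularWreathProduct.mul_left, hφ1 a ha, hφ1 b hb, mul_comm]
      · simp [hφ1 a ha, hφ1 b hb]
    · rw [SetLike.mem_coe, MonoidHom.mem_ker, map_pow]
      have h1 : ∀ n : ℕ, ((φ a) ^ n).right = 1 ∧ ((φ a) ^ n).left = (φ a).left ^ n := by
        intro n
        induction n with
        | zero => simp
        | succ n ih =>
          rw [pow_succ']
          refine ⟨by rw [RegularWreathProduct.mul_right, ih.1, hφ1 a ha, mul_one], ?_⟩
          rw [RegularWreathProduct.mul_left, ih.2, hφ1 a ha]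
          funext z
          simp [pow_succ']
      ext z
      · rw [(h1 p).2, Pi.pow_apply, RegularWreathProduct.one_left, Pi.one_apply]
        have h2 : ∀ m : Multiplicative (ZMod p), m ^ p = 1 := by
          intro m
          have : (p : ℕ) • (Multiplicative.toAdd m) = 0 := by
            rw [nsmul_eq_mul, CharP.cast_eq_zero, zero_mul]
          exact this
        exact h2 _
      · rw [(h1 p).1, RegularWreathProduct.one_right]
  let φ' : FreeGroup (Fin k) ⧸ EE p R →* Multiplicative (ZMod p) ≀ᵣ Q :=
    QuotientGroup.lift (EE p R) φ hker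
  choose t ht using fun i : Set.range x => i.2
  have hy : ∀ i : Set.range x, φ' (QuotientGroup.mk' (EE p R) (FreeGroup.of (t i))) = yy c s i := by
    intro i
    change φ (FreeGroup.of (t i)) = _
    simp only [φ, FreeGroup.lift_apply_of]
    unfold yy
    rw [ht i]
  have hnp := hnil _ (XX_sub_mem (K := K)
    fun i : Set.range x => QuotientGroup.mk' (EE p R) (FreeGroup.of (t i)))
  have h3 := hnp.map (MonoidAlgebra.mapDomainRingHom K φ')
  convert h3 using 1
  rw [map_sub]
  congr 1
  · unfold XX
    rw [map_sum]
    refine Finset.sum_congr rfl fun i _ => ?_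
    rw [← hy i]
    change _ = MonoidAlgebra.mapDomain _ (MonoidAlgebra.single _ 1)
    rw [MonoidAlgebra.mapDomain_single]
  · rw [map_natCast, map_natCast, map_natCast]

end Pool.Agent.NilExt
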