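import Pool.Agent.NilExt.Power
import Pool.Agent.NilAm.Main
import Pool.Agent.GolodShaf.AugPow

/-!
# Groups with nil augmentation ideal: basic facts
-/

open scoped Pointwise

namespace Pool.Agent.NilExt

open Pool.Agent.NilAm

/-- the augmentation ideal is nil -/
def Nil (K G : Type*) [Field K] [Group G] : Prop := ∀ x ∈ augIdeal K G, IsNilpotent x

variable {K G : Type*} [Field K] [Group G]

theorem of_sub_one_mem (g : G) : MonoidAlgebra.of K G g - 1 ∈ augIdeal K G :=
  Ideal.subset_span ⟨g, rfl⟩

/-- powers of an element have their supports in a common finite set -/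
theorem fin_supp (hnil : Nil K G) (x : MonoidAlgebra K G) :
    {g : G | ∃ n : ℕ, (x ^ n).coeff g ≠ 0}.Finite := by
  obtain ⟨c, hc⟩ := sub_mem x
  obtain ⟨q, hq⟩ := hnil _ hc
  have hT : {g : G | ∃ i < q, (x ^ i).coeff g ≠ 0}.Finite := by
    have : {g : G | ∃ i < q, (x ^ i).coeff g ≠ 0} ⊆
        ⋃ i ∈ Finset.range q, (((x ^ i).coeff.support : Finset G) : Set G) := by
      rintro g ⟨i, hi, hg⟩
      simp only [Set.mem_iUnion]
      exact ⟨i, Finset.mem_range.2 hi, by simpa using hg⟩
    exact (Set.Finite.biUnion (Finset.finite_toSet _) fun i _ => Finset.finite_toSet _).subset this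
  refine hT.subset ?_
  rintro g ⟨n, hn⟩
  by_contra hg
  have hg' : ∀ i < q, (x ^ i).coeff g = 0 := by
    intro i hi
    by_contra h
    exact hg ⟨i, hi, h⟩
  suffices hall : ∀ n, (x ^ n).coeff g = 0 from hn (hall n)
  clear hn n
  intro n
  induction n using Nat.strong_induction_on with
  | _ n ih =>
    by_cases hnq : n < q
    · exact hg' n hnq
    · have hsub : x - algebraMap K (MonoidAlgebra K G) c =
          x + algebraMap K (MonoidAlgebra K G) (-c) := by
        rw [map_neg, sub_eq_add_neg]
      have hq2 : x ^ (n - q) * (x - algebraMap K (MonoidAlgebra K G) c) ^ q = 0 := by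
        rw [hq, mul_zero]
      rw [hsub, (Algebra.commute_algebraMap_right _ x).add_pow, Finset.mul_sum] at hq2
      have h1 := congrArg (fun x => x.coeff g) hq2
      simp only [MonoidAlgebra.coeff_sum, Finsupp.finsetSum_apply, MonoidAlgebra.coeff_zero,
        Finsupp.coe_zero, Pi.zero_apply] at h1
      have hterm : ∀ m, (x ^ (n - q) * (x ^ m * algebraMap K (MonoidAlgebra K G) (-c) ^ (q - m)
          * (q.choose m : MonoidAlgebra K G))).coeff g =
          (-c) ^ (q - m) * q.choose m * (x ^ (n - q + m)).coeff g := by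
        intro m
        have : x ^ (n - q) * (x ^ m * algebraMap K (MonoidAlgebra K G) (-c) ^ (q - m)
            * (q.choose m : MonoidAlgebra K G)) = ((-c) ^ (q - m) * q.choose m) •
            x ^ (n - q + m) := by
          rw [Algebra.smul_def, Algebra.commutes, map_mul, map_pow, map_natCast, pow_add]
          simp only [mul_assoc]
        rw [this, MonoidAlgebra.coeff_smul, Finsupp.smul_apply, smul_eq_mul]
      rw [Finset.sum_range_succ, Finset.sum_eq_zero (fun m hm => by
        rw [hterm, ih (n - q + m) (by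
          have := Finset.mem_range.1 hm
          omega), mul_zero]), hterm] at h1
      · simpa [Nat.sub_add_cancel (not_lt.1 hnq)] using h1

/-- the map of group algebras induced by a homomorphism -/
theorem map_mem {G' : Type*} [Group G'] (f : G →* G') {x : MonoidAlgebra K G}
    (hx : x ∈ augIdeal K G) : MonoidAlgebra.mapDomainRingHom K f x ∈ augIdeal K G' := by
  have h2 : augIdeal K G ≤ (augIdeal K G').comap (MonoidAlgebra.mapDomainRingHom K f) := by
    refine Ideal.span_le.2 ?_
    rintro y ⟨g, rfl⟩
    change MonoidAlgebra.mapDomainRingHom K f (MonoidAlgebra.of K G g - 1) ∈ augIdeal K G'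
    rw [map_sub, map_one]
    refine Ideal.subset_span ⟨f g, ?_⟩
    congr 1
    change MonoidAlgebra.mapDomain _ (MonoidAlgebra.single g 1) = MonoidAlgebra.single (f g) 1
    rw [MonoidAlgebra.mapDomain_single]
  exact h2 hx

theorem exists_preimage {G' : Type*} [Group G'] (f : G →* G') (hf : Function.Surjective f)
    (x : MonoidAlgebra K G') : ∃ x', MonoidAlgebra.mapDomainRingHom K f x' = x := by
  induction x using MonoidAlgebra.induction_on with
  | of g =>
    obtain ⟨g', rfl⟩ := hf g
    refine ⟨MonoidAlgebra.of K G g', ?_⟩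
    change MonoidAlgebra.mapDomain _ (MonoidAlgebra.single g' 1) = MonoidAlgebra.single (f g') 1
    rw [MonoidAlgebra.mapDomain_single]
  | add x y hx hy =>
    obtain ⟨x', rfl⟩ := hx
    obtain ⟨y', rfl⟩ := hy
    exact ⟨x' + y', map_add _ _ _⟩
  | smul r x hx =>
    obtain ⟨x', rfl⟩ := hx
    refine ⟨MonoidAlgebra.single 1 r * x', ?_⟩
    rw [map_mul]
    change MonoidAlgebra.mapDomain _ (MonoidAlgebra.single 1 r) * _ = _
    rw [MonoidAlgebra.mapDomain_single, map_one]
    ext g
    simp

theorem Nil.of_surjective {G' : Type*} [Group G'] (hnil : Nil K G) (f : G →* G')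
    (hf : Function.Surjective f) : Nil K G' := by
  intro x hx
  have key : ∃ x' ∈ augIdeal K G, MonoidAlgebra.mapDomainRingHom K f x' = x := by
    unfold augIdeal Ideal.span at hx
    induction hx using Submodule.span_induction with
    | mem y hy =>
      obtain ⟨g, rfl⟩ := hy
      obtain ⟨g', rfl⟩ := hf g
      refine ⟨MonoidAlgebra.of K G g' - 1, of_sub_one_mem g', ?_⟩
      rw [map_sub, map_one]
      congr 1
      change MonoidAlgebra.mapDomain _ (MonoidAlgebra.single g' 1) = MonoidAlgebra.single (f g') 1
      rw [MonoidAlgebra.mapDomain_single]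
    | zero => exact ⟨0, Ideal.zero_mem _, map_zero _⟩
    | add a b _ _ ha hb =>
      obtain ⟨a', ha', rfl⟩ := ha
      obtain ⟨b', hb', rfl⟩ := hb
      exact ⟨a' + b', Ideal.add_mem _ ha' hb', map_add _ _ _⟩
    | smul a y _ hy =>
      obtain ⟨y', hy', rfl⟩ := hy
      obtain ⟨a', rfl⟩ := exists_preimage f hf a
      exact ⟨a' * y', Ideal.mul_mem_left _ _ hy', map_mul _ _ _⟩
  obtain ⟨x', hx', rfl⟩ := key
  exact (hnil x' hx').map _

section charp

variable (p : ℕ) [hp : Fact p.Prime] [CharP K p]

theorem pow_p_pow (g : G) (k : ℕ) :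
    (MonoidAlgebra.of K G g - 1) ^ (p ^ k) = MonoidAlgebra.of K G (g ^ p ^ k) - 1 := by
  have : CharP (MonoidAlgebra K G) p :=
    charP_of_injective_algebraMap (algebraMap K (MonoidAlgebra K G)).injective p
  have h2 : (MonoidAlgebra.of K G g - 1) ^ (p ^ k)
      = (MonoidAlgebra.of K G g) ^ (p ^ k) - 1 ^ (p ^ k) :=
    sub_pow_char_pow_of_commute _ _ (Commute.one_right _)
  rw [h2, one_pow, ← map_pow]

theorem Nil.isPGroup (hnil : Nil K G) : IsPGroup p G := by
  intro g
  obtain ⟨k, hk⟩ := hnil _ (of_sub_one_mem g)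
  refine ⟨k, ?_⟩
  have h1 : (MonoidAlgebra.of K G g - 1) ^ (p ^ k) = 0 := by
    obtain ⟨d, hd⟩ := Nat.exists_eq_add_of_le (Nat.lt_pow_self hp.out.one_lt (n := k)).le
    rw [hd, pow_add, hk, zero_mul]
  rw [pow_p_pow] at h1
  have h3 : MonoidAlgebra.of K G (g ^ p ^ k) = MonoidAlgebra.of K G 1 := by
    rw [map_one]
    exact sub_eq_zero.1 h1
  exact MonoidAlgebra.of_injective h3

/-- abelian groups of exponent `p` -/
theorem nil_of_comm (hcomm : ∀ a b : G, a * b = b * a) (hexp : ∀ a : G, a ^ p = 1) : Nil K G := by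
  let _ : CommGroup G := { (inferInstance : Group G) with mul_comm := hcomm }
  intro x hx
  have h1 : augIdeal K G ≤ nilradical (MonoidAlgebra K G) := by
    refine Ideal.span_le.2 ?_
    rintro y ⟨g, rfl⟩
    refine mem_nilradical.2 ⟨p, ?_⟩
    have := pow_p_pow (K := K) p g 1
    rw [pow_one, hexp, map_one, sub_self] at this
    exact this
  exact mem_nilradical.1 (h1 hx)

/-- locally finite `p`-groups -/
theorem nil_of_locFin (hP : IsPGroup p G)
    (hfin : ∀ S : Finset G, Finite (Subgroup.closure (S : Set G))) : Nil K G := by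
  classical
  intro x hx
  let ε : MonoidAlgebra K G →ₐ[K] K := MonoidAlgebra.lift K K G (1 : G →* K)
  have hε : ∀ g : G, ε (MonoidAlgebra.of K G g) = 1 := fun g => by
    simp [ε]
  have hεx : ε x = 0 := by
    have : augIdeal K G ≤ RingHom.ker (ε : MonoidAlgebra K G →+* K) := by
      refine Ideal.span_le.2 ?_
      rintro y ⟨g, rfl⟩
      change ε (MonoidAlgebra.of K G g - 1) = 0
      rw [map_sub, hε, map_one, sub_self]
    exact this hx
  set H := Subgroup.closure ((x.coeff.support : Finset G) : Set G) with hH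
  have hHfin : Finite H := hfin _
  set s : Set (MonoidAlgebra K G) := {y | ∃ g : H, y = MonoidAlgebra.of K G g - 1} with hs
  have hxs : x ∈ Submodule.span K s := by
    have h1 : x = ∑ g ∈ x.coeff.support, MonoidAlgebra.single g (x.coeff g) := by
      ext g
      rw [MonoidAlgebra.coeff_sum, Finsupp.finsetSum_apply]
      simp only [MonoidAlgebra.coeff_single, Finsupp.single_apply]
      rw [Finset.sum_ite_eq']
      split_ifs with h
      · rfl
      · simpa using h
    have h2 : ∀ g, MonoidAlgebra.single g (x.coeff g) =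
        (x.coeff g) • (MonoidAlgebra.of K G g - 1) + (x.coeff g) • (1 : MonoidAlgebra K G) := by
      intro g
      rw [smul_sub, sub_add_cancel]
      change _ = x.coeff g • MonoidAlgebra.single g 1
      rw [MonoidAlgebra.smul_single, smul_eq_mul, mul_one]
    have h3 : ∑ g ∈ x.coeff.support, x.coeff g = 0 := by
      rw [← hεx]
      conv_rhs => rw [h1]
      rw [map_sum]
      refine Finset.sum_congr rfl fun g _ => ?_
      rw [h2, map_add, map_smul, map_smul, map_sub, hε, map_one]
      simp
    rw [h1]
    simp only [h2]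
    rw [Finset.sum_add_distrib, ← Finset.sum_smul, h3, zero_smul, add_zero]
    refine Submodule.sum_mem _ fun g hg => Submodule.smul_mem _ _ (Submodule.subset_span ?_)
    exact ⟨⟨g, Subgroup.subset_closure (by simpa using hg)⟩, rfl⟩
  obtain ⟨N, hN⟩ := GolodShaf.augPow_nilpotent (p := p) (Γ := H) (hP.to_subgroup H)
  refine ⟨N, ?_⟩
  let _ : Algebra (ZMod p) K := ZMod.algebra K p
  let ψ : MonoidAlgebra (ZMod p) H →ₐ[ZMod p] MonoidAlgebra K G :=
    MonoidAlgebra.lift (ZMod p) (MonoidAlgebra K G) H ((MonoidAlgebra.of K G).comp H.subtype)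
  have hψ : ∀ g : H, ψ (GolodShaf.gr p g - 1) = MonoidAlgebra.of K G g - 1 := by
    intro g
    rw [map_sub, map_one]
    congr 1
    exact MonoidAlgebra.lift_of _ _
  have h4 := Submodule.pow_mem_pow _ hxs N
  rw [Submodule.span_pow] at h4
  have h5 : s ^ N ⊆ {0} := by
    intro y hy
    rw [Set.mem_pow] at hy
    obtain ⟨f, rfl⟩ := hy
    choose g hg using fun i => (f i).2
    have h6 : (List.ofFn fun i => ((f i : MonoidAlgebra K G))) =
        ((List.ofFn g).map fun h => GolodShaf.gr p h - 1).map ψ := by
      rw [List.map_map, List.map_ofFn]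
      congr 1
      funext i
      rw [hg i]
      exact (hψ (g i)).symm
    rw [h6, ← map_list_prod]
    have h7 := GolodShaf.prod_mem_augPow (p := p) (List.ofFn g) (n := N) (by rw [List.length_ofFn])
    rw [hN, Submodule.mem_bot] at h7
    rw [h7, map_zero]
    rfl
  have h6 : Submodule.span K (s ^ N) ≤ ⊥ := by
    rw [Submodule.span_le]
    exact h5
  exact (Submodule.mem_bot K).1 (h6 h4)

end charp

/-- extensions of locally finite groups are locally finite -/
theorem ext_locFin (N : Subgroup G) [N.Normal]
    (hN : ∀ S : Finset N, Finite (Subgroup.closure (S : Set N)))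
    (hQ : ∀ S : Finset (G ⧸ N), Finite (Subgroup.closure (S : Set (G ⧸ N))))
    (S : Finset G) : Finite (Subgroup.closure (S : Set G)) := by
  classical
  set H := Subgroup.closure (S : Set G) with hH
  have hHfg : Group.FG H := by
    rw [Group.fg_iff_subgroup_fg]
    exact ⟨S, rfl⟩
  set q : H →* G ⧸ N := (QuotientGroup.mk' N).comp H.subtype with hq
  have hrange : q.range = Subgroup.closure ((S.image (QuotientGroup.mk' N) : Finset (G ⧸ N)) :
      Set (G ⧸ N)) := by
    rw [hq, MonoidHom.range_comp, Subgroup.range_subtype, hH, MonoidHom.map_closure,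
      Finset.coe_image]
  have hfr : Finite q.range := by
    rw [hrange]
    exact hQ _
  have hfi : Finite (H ⧸ q.ker) :=
    Finite.of_equiv _ (QuotientGroup.quotientKerEquivRange q).symm.toEquiv
  have hfi' : q.ker.FiniteIndex := Subgroup.finiteIndex_of_finite_quotient
  have hkfg : Group.FG q.ker := Subgroup.fg_of_index_ne_zero _
  have hmem : ∀ k : q.ker, ((k : H) : G) ∈ N := by
    intro k
    have h1 : q k = 1 := k.2
    exact (QuotientGroup.eq_one_iff _).1 h1
  let j : q.ker →* N :=
    { toFun := fun k => ⟨((k : H) : G), hmem k⟩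
      map_one' := rfl
      map_mul' := fun _ _ => rfl }
  have hj : Function.Injective j := by
    intro a b hab
    have h2 : ((a : H) : G) = ((b : H) : G) := by
      have h3 : (j a : G) = (j b : G) := by rw [hab]
      exact h3
    exact Subtype.ext (Subtype.ext h2)
  have hjfg : j.range.FG := by
    rw [← Group.fg_iff_subgroup_fg]
    exact Group.fg_range j
  obtain ⟨T, hT⟩ := hjfg
  have hjfin : Finite j.range := by
    rw [← hT]
    exact hN T
  have hkfin : Finite q.ker := Finite.of_injective j.rangeRestrict (by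
    intro a b hab
    have h2 : (j.rangeRestrict a : N) = (j.rangeRestrict b : N) := by rw [hab]
    exact hj h2)
  exact Finite.of_equiv _ (Subgroup.groupEquivQuotientProdSubgroup (s := q.ker)).symm

end Pool.Agent.NilExt
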