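import Pool.Agent.NilExt.Word

/-!
# Powers of sums of group elements
-/

namespace Pool.Agent.NilExt

section

variable {G ι : Type*} [Group G] [Fintype ι]

/-- the sum of the elements `y i` in the group algebra -/
noncomputable def XX (K : Type*) [Field K] (y : ι → G) : MonoidAlgebra K G :=
  ∑ i, MonoidAlgebra.single (y i) 1

theorem XX_pow (K : Type*) [Field K] (y : ι → G) (n : ℕ) : (XX K y) ^ n =
    ∑ w : Fin n → ι, MonoidAlgebra.single (((List.ofFn w).map y).prod) (1 : K) := by
  induction n with
  | zero =>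
    rw [pow_zero, Fintype.sum_unique]
    simp [MonoidAlgebra.one_def]
  | succ n ih =>
    rw [pow_succ', ih, ← (Fin.consEquiv fun _ : Fin (n + 1) => ι).sum_comp,
      Fintype.sum_prod_type]
    unfold XX
    rw [Finset.sum_mul]
    refine Finset.sum_congr rfl fun i _ => ?_
    rw [Finset.mul_sum]
    refine Finset.sum_congr rfl fun w _ => ?_
    rw [MonoidAlgebra.single_mul_single, one_mul]
    congr 1
    simp [List.ofFn_succ]

open Classical in
theorem XX_coeff (K : Type*) [Field K] (y : ι → G) (n : ℕ) (g : G) : ((XX K y) ^ n).coeff g =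
    ∑ w : Fin n → ι, if ((List.ofFn w).map y).prod = g then (1 : K) else 0 := by
  rw [XX_pow, MonoidAlgebra.coeff_sum, Finsupp.finsetSum_apply]
  refine Finset.sum_congr rfl fun w _ => ?_
  rw [MonoidAlgebra.coeff_single, Finsupp.single_apply]

end

section

variable {ι H D : Type*} [Group H] [Group D] [Fintype ι]

/-- In the wreath product the sum of the elements `y i = (δ₁(c), s i)` minus the number of letters is
not nilpotent. -/
theorem not_nilpotent (K : Type*) [Field K] [Infinite H] {c : D} (hc : c ≠ 1) {s : ι → H}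
    (hs : Function.Injective s) (hcl : Subgroup.closure (Set.range s) = ⊤) :
    ¬ IsNilpotent (XX K (yy c s) - algebraMap K (MonoidAlgebra K (D ≀ᵣ H)) (Fintype.card ι)) := by
  classical
  rintro ⟨q, hq⟩
  obtain ⟨l, hl, hgeo⟩ := exists_geo s hcl q
  set g : D ≀ᵣ H := (l.map (yy c s)).prod with hg
  have hlow : ∀ m < q, ((XX K (yy c s)) ^ m).coeff g = 0 := by
    intro m hm
    rw [XX_coeff]
    refine Finset.sum_eq_zero fun w _ => if_neg fun h => ?_
    have h1 := congrArg RegularWreathProduct.right h
    rw [hg, (yy_prod c s _).1, (yy_prod c s _).1] at h1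
    exact hgeo (List.ofFn w) (by rw [List.length_ofFn]; omega) h1
  have htop : ((XX K (yy c s)) ^ q).coeff g = 1 := by
    rw [XX_coeff]
    let w₀ : Fin q → ι := fun i => l.get (Fin.cast hl.symm i)
    have hw₀ : List.ofFn w₀ = l := by
      subst hl
      exact List.ofFn_get l
    rw [Finset.sum_eq_single w₀]
    · rw [hw₀, if_pos rfl]
    · intro w _ hw
      refine if_neg fun h => hw ?_
      have h1 : List.ofFn w = l := hgeo.unique hc hs (by rw [List.length_ofFn, hl]) h
      exact List.ofFn_injective (h1.trans hw₀.symm)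
    · intro h
      exact absurd (Finset.mem_univ _) h
  set X := XX K (yy c s) with hX
  have hsub : X - algebraMap K (MonoidAlgebra K (D ≀ᵣ H)) (Fintype.card ι) =
      X + algebraMap K (MonoidAlgebra K (D ≀ᵣ H)) (-(Fintype.card ι : K)) := by
    rw [map_neg, sub_eq_add_neg]
  rw [hsub, (Algebra.commute_algebraMap_right _ X).add_pow] at hq
  have h1 := congrArg (fun x => x.coeff g) hq
  simp only [MonoidAlgebra.coeff_sum, Finsupp.finsetSum_apply, MonoidAlgebra.coeff_zero,
    Finsupp.coe_zero, Pi.zero_apply] at h1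
  have hterm : ∀ m, (X ^ m * algebraMap K (MonoidAlgebra K (D ≀ᵣ H)) (-(Fintype.card ι : K)) ^ (q - m)
      * (q.choose m : MonoidAlgebra K (D ≀ᵣ H))).coeff g =
      (-(Fintype.card ι : K)) ^ (q - m) * q.choose m * (X ^ m).coeff g := by
    intro m
    have : X ^ m * algebraMap K (MonoidAlgebra K (D ≀ᵣ H)) (-(Fintype.card ι : K)) ^ (q - m)
        * (q.choose m : MonoidAlgebra K (D ≀ᵣ H)) =
        ((-(Fintype.card ι : K)) ^ (q - m) * q.choose m) • X ^ m := by
      rw [Algebra.smul_def, Algebra.commutes, map_mul, map_pow, map_natCast, mul_assoc]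
    rw [this, MonoidAlgebra.coeff_smul, Finsupp.smul_apply, smul_eq_mul]
  rw [Finset.sum_range_succ, Finset.sum_eq_zero (fun m hm => by
    rw [hterm, hlow m (Finset.mem_range.1 hm), mul_zero]), hterm, htop] at h1
  simp at h1

end

end Pool.Agent.NilExt
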