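import Pool.Agent.NilExt.Main

/-!
# Groups with nil augmentation ideal and extensions: equivalences
-/

namespace Pool.Agent.NilExt

open Pool.Agent.NilAm

theorem words {K G : Type} [Field K] [Group G] (p : ℕ) [CharP K p] (hnil : Nil K G)
    (S : Finset G) : {g : G | ∃ n : ℕ,
      ¬ p ∣ Nat.card {w : Fin n → S // (List.ofFn fun i => (w i : G)).prod = g}}.Finite := by
  classical
  refine (fin_supp hnil (XX K (Subtype.val : S → G))).subset ?_
  rintro g ⟨n, hn⟩
  refine ⟨n, ?_⟩
  rw [XX_coeff]
  have h1 : (∑ w : Fin n → S, if ((List.ofFn w).map (Subtype.val : S → G)).prod = g then (1 : K) else 0)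
      = (Nat.card {w : Fin n → S // (List.ofFn fun i => (w i : G)).prod = g} : K) := by
    rw [Nat.card_eq_fintype_card, Fintype.card_subtype, Finset.card_filter, Nat.cast_sum]
    refine Finset.sum_congr rfl fun w _ => ?_
    have h2 : (List.ofFn w).map (Subtype.val : S → G) = List.ofFn fun i => (w i : G) := by
      rw [List.map_ofFn]
      rfl
    rw [h2]
    split_ifs <;> simp
  rw [h1]
  intro h
  exact hn ((CharP.cast_eq_zero_iff K p _).1 h)

/-- locally finite -/
def LF (G : Type) [Group G] : Prop := ∀ S : Finset G, Finite (Subgroup.closure (S : Set G))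

variable (p : ℕ) [Fact p.Prime] (K : Type) [Field K] [CharP K p]

include p in
theorem one_two (h : ∀ (G : Type) [Group G], Nil K G → LF G) (G : Type) [Group G]
    (N : Subgroup G) [N.Normal] (hN : Nil K N) (hQ : Nil K (G ⧸ N)) : Nil K G := by
  have h1 := ext_locFin N (h _ hN) (h _ hQ)
  have hp : Fact p.Prime := inferInstance
  refine nil_of_locFin (K := K) p ?_ h1
  intro g
  obtain ⟨a, ha⟩ := Nil.isPGroup (K := K) p hQ (QuotientGroup.mk' N g)
  rw [← map_pow] at ha
  have ha' : g ^ p ^ a ∈ N := (QuotientGroup.eq_one_iff _).1 ha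
  obtain ⟨b, hb⟩ := Nil.isPGroup (K := K) p hN ⟨g ^ p ^ a, ha'⟩
  refine ⟨a + b, ?_⟩
  have h2 := congrArg Subtype.val hb
  rw [pow_add, pow_mul]
  exact h2

theorem two_three (h : ∀ (G : Type) [Group G] (N : Subgroup G) [N.Normal], Nil K N →
    Nil K (G ⧸ N) → Nil K G) (H : Type) [Group H] (hH : Nil K H) :
    Nil K (Multiplicative (ZMod p) ≀ᵣ H) := by
  set N := (RegularWreathProduct.rightHom : Multiplicative (ZMod p) ≀ᵣ H →* H).ker with hN
  have hr : ∀ a : N, (a : Multiplicative (ZMod p) ≀ᵣ H).right = 1 := fun a => a.2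
  refine h _ N ?_ ?_
  · refine nil_of_comm p ?_ ?_
    · intro a b
      refine Subtype.ext ?_
      ext z
      · simp [RegularWreathProduct.mul_left, hr a, hr b, mul_comm]
      · simp [hr a, hr b]
    · intro a
      have h1 : ∀ n : ℕ, ((a : Multiplicative (ZMod p) ≀ᵣ H) ^ n).right = 1 ∧
          ((a : Multiplicative (ZMod p) ≀ᵣ H) ^ n).left =
            (a : Multiplicative (ZMod p) ≀ᵣ H).left ^ n := by
        intro n
        induction n with
        | zero => simp
        | succ n ih =>
          rw [pow_succ']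
          refine ⟨by rw [RegularWreathProduct.mul_right, ih.1, hr a, mul_one], ?_⟩
          rw [RegularWreathProduct.mul_left, ih.2, hr a]
          funext z
          simp [pow_succ']
      refine Subtype.ext ?_
      rw [SubmonoidClass.coe_pow, OneMemClass.coe_one]
      ext z
      · rw [(h1 p).2, Pi.pow_apply, RegularWreathProduct.one_left, Pi.one_apply]
        have h2 : ∀ m : Multiplicative (ZMod p), m ^ p = 1 := by
          intro m
          have : (p : ℕ) • (Multiplicative.toAdd m) = 0 := by
            rw [nsmul_eq_mul, CharP.cast_eq_zero, zero_mul]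
          exact this
        exact h2 _
      · rw [(h1 p).1, RegularWreathProduct.one_right]
  · refine hH.of_surjective ((QuotientGroup.mk' N).comp RegularWreathProduct.inl) ?_
    intro q
    obtain ⟨w, rfl⟩ := QuotientGroup.mk'_surjective N q
    refine ⟨w.right, ?_⟩
    change QuotientGroup.mk' N (RegularWreathProduct.inl w.right) = QuotientGroup.mk' N w
    refine QuotientGroup.eq.2 ?_
    change RegularWreathProduct.rightHom _ = 1
    simp

theorem closure_fg {G : Type} [Group G] (S : Finset G) :
    Group.FG (Subgroup.closure (S : Set G)) :=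
  (Group.fg_iff_subgroup_fg (Subgroup.closure (S : Set G))).2 ⟨S, rfl⟩

theorem three_one (h : ∀ (H : Type) [Group H], Nil K H → Nil K (Multiplicative (ZMod p) ≀ᵣ H))
    (G : Type) [Group G] (hG : Nil K G) : LF G := by
  intro S
  by_contra hinf
  have hinf' : Infinite (Subgroup.closure (S : Set G)) := not_finite_iff_infinite.1 hinf
  have hfg : Group.FG (Subgroup.closure (S : Set G)) := closure_fg S
  have hnt : Nontrivial (Multiplicative (ZMod p)) := by
    have : Nontrivial (ZMod p) := ZMod.nontrivial p
    infer_instance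
  exact wreath_not_nil K (h (Subgroup.closure (S : Set G)) (nil_of_subgroup _ hG))

theorem two_four (h : ∀ (G : Type) [Group G] (N : Subgroup G) [N.Normal], Nil K N →
    Nil K (G ⧸ N) → Nil K G) (k : ℕ) (R : Subgroup (FreeGroup (Fin k))) [R.Normal]
    (hR : Nil K (FreeGroup (Fin k) ⧸ R)) : Nil K (FreeGroup (Fin k) ⧸ EE p R) := by
  set N := R.map (QuotientGroup.mk' (EE p R)) with hN
  have hNn : N.Normal := Subgroup.Normal.map inferInstance _ (QuotientGroup.mk'_surjective _)
  refine h _ N ?_ ?_
  · refine nil_of_comm p ?_ ?_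
    · rintro ⟨_, a, ha, rfl⟩ ⟨_, b, hb, rfl⟩
      refine Subtype.ext ?_
      change QuotientGroup.mk' (EE p R) a * QuotientGroup.mk' (EE p R) b =
        QuotientGroup.mk' (EE p R) b * QuotientGroup.mk' (EE p R) a
      rw [← map_mul, ← map_mul]
      refine (QuotientGroup.eq.2 ?_).symm
      have := EE_comm p R (inv_mem ha) (inv_mem hb)
      rw [inv_inv, inv_inv] at this
      simpa [mul_assoc] using this
    · rintro ⟨_, a, ha, rfl⟩
      refine Subtype.ext ?_
      change (QuotientGroup.mk' (EE p R) a) ^ p = 1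
      rw [← map_pow]
      exact (QuotientGroup.eq_one_iff _).2 (EE_pow p R ha)
  · let f : FreeGroup (Fin k) ⧸ R →* (FreeGroup (Fin k) ⧸ EE p R) ⧸ N :=
      QuotientGroup.lift R ((QuotientGroup.mk' N).comp (QuotientGroup.mk' (EE p R))) (by
        intro a ha
        exact (QuotientGroup.eq_one_iff _).2 ⟨a, ha, rfl⟩)
    refine hR.of_surjective f ?_
    intro q
    obtain ⟨q, rfl⟩ := QuotientGroup.mk'_surjective N q
    obtain ⟨w, rfl⟩ := QuotientGroup.mk'_surjective (EE p R) q
    exact ⟨QuotientGroup.mk' R w, rfl⟩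

omit [CharP K p] in
theorem four_one (h : ∀ (k : ℕ) (R : Subgroup (FreeGroup (Fin k))) [R.Normal],
    Nil K (FreeGroup (Fin k) ⧸ R) → Nil K (FreeGroup (Fin k) ⧸ EE p R))
    (G : Type) [Group G] (hG : Nil K G) : LF G := by
  intro S
  by_contra hinf
  have hinf' : Infinite (Subgroup.closure (S : Set G)) := not_finite_iff_infinite.1 hinf
  set H := Subgroup.closure (S : Set G) with hH
  let x : Fin S.card → H := fun i => ⟨S.equivFin.symm i, Subgroup.subset_closure
    (S.equivFin.symm i).2⟩
  let f : FreeGroup (Fin S.card) →* H := FreeGroup.lift x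
  have hf : Function.Surjective f := by
    rw [← MonoidHom.range_eq_top, eq_top_iff]
    rintro ⟨y, hy⟩ -
    have h1 : (f.range.map H.subtype) = H := by
      refine le_antisymm ?_ ?_
      · rintro _ ⟨z, _, rfl⟩
        exact z.2
      · refine (Subgroup.closure_le _).2 ?_
        intro s hs
        refine ⟨f (FreeGroup.of (S.equivFin ⟨s, hs⟩)), ⟨_, rfl⟩, ?_⟩
        simp [f, x]
    have h2 : y ∈ f.range.map H.subtype := by
      rw [h1]
      exact hy
    obtain ⟨z, hz, hzy⟩ := h2
    have : z = ⟨y, hy⟩ := Subtype.ext hzy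
    rwa [this] at hz
  let eq := QuotientGroup.quotientKerEquivOfSurjective f hf
  have hn : Nil K (FreeGroup (Fin S.card) ⧸ f.ker) :=
    Nil.of_surjective (nil_of_subgroup H hG) eq.symm.toMonoidHom eq.symm.surjective
  have hi : Infinite (FreeGroup (Fin S.card) ⧸ f.ker) := Infinite.of_injective eq.symm eq.symm.injective
  exact magnus_not_nil K p _ f.ker (h _ _ hn)

end Pool.Agent.NilExt
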