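import Mathlib

/-!
# Geodesic positive words and wreath products

`ι` is a finite alphabet with a map `s : ι → H` into a group. A word `l : List ι` is geodesic if no
shorter word has the same product. In the wreath product `D ≀ᵣ H` the elements `y i = (δ₁(c), s i)`,
`c ≠ 1`, have the property that a geodesic word is the only word of its length with its product.
-/

namespace Pool.Agent.NilExt

variable {ι H D : Type*} [Group H] [Group D]

/-- the product of the first `j` letters -/
def pre (s : ι → H) (l : List ι) (j : ℕ) : H := ((l.map s).take j).prod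

/-- no shorter word has the same product -/
def Geo (s : ι → H) (l : List ι) : Prop :=
  ∀ l' : List ι, l'.length < l.length → (l'.map s).prod ≠ (l.map s).prod

theorem exists_geo [Finite ι] [Infinite H] (s : ι → H)
    (hs : Subgroup.closure (Set.range s) = ⊤) (n : ℕ) : ∃ l : List ι, l.length = n ∧ Geo s l := by
  by_contra hcon
  push Not at hcon
  have h1 : ∀ l : List ι, l.length = n → ∃ l' : List ι, l'.length < n ∧
      (l'.map s).prod = (l.map s).prod := by
    intro l hl
    have := hcon l hl
    unfold Geo at this
    push Not at this
    obtain ⟨l', h2, h3⟩ := this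
    exact ⟨l', hl ▸ h2, h3⟩
  have h2 : ∀ (m : ℕ) (l : List ι), l.length = m → ∃ l' : List ι, l'.length < n ∧
      (l'.map s).prod = (l.map s).prod := by
    intro m
    induction m using Nat.strong_induction_on with
    | _ m ih =>
      intro l hl
      by_cases hm : m < n
      · exact ⟨l, hl ▸ hm, rfl⟩
      · obtain ⟨l₁, hl₁, hp₁⟩ := h1 (l.take n) (by rw [List.length_take]; omega)
        have hlen : (l₁ ++ l.drop n).length < m := by
          rw [List.length_append, List.length_drop]
          omega
        obtain ⟨l₂, hl₂, hp₂⟩ := ih _ hlen (l₁ ++ l.drop n) rfl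
        refine ⟨l₂, hl₂, ?_⟩
        rw [hp₂, List.map_append, List.prod_append, hp₁, ← List.prod_append, ← List.map_append,
          List.take_append_drop]
  have hfin : {h : H | ∃ l : List ι, (l.map s).prod = h}.Finite := by
    refine ((List.finite_length_lt ι n).image (fun l => (l.map s).prod)).subset ?_
    rintro h ⟨l, rfl⟩
    obtain ⟨l', hl', hp⟩ := h2 _ l rfl
    exact ⟨l', hl', hp⟩
  have hmon : ∀ h ∈ Submonoid.closure (Set.range s), ∃ l : List ι, (l.map s).prod = h := by
    intro h hh
    induction hh using Submonoid.closure_induction with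
    | mem x hx =>
      obtain ⟨i, rfl⟩ := hx
      exact ⟨[i], by simp⟩
    | one => exact ⟨[], by simp⟩
    | mul a b _ _ ha hb =>
      obtain ⟨l, rfl⟩ := ha
      obtain ⟨l', rfl⟩ := hb
      exact ⟨l ++ l', by simp⟩
  have hfin2 : ((Submonoid.closure (Set.range s) : Submonoid H) : Set H).Finite :=
    hfin.subset hmon
  have hfo : ∀ x ∈ Set.range s, IsOfFinOrder x := by
    intro x hx
    have hpow : Set.MapsTo (fun k : ℕ => x ^ k) Set.univ
        ((Submonoid.closure (Set.range s) : Submonoid H) : Set H) := fun k _ =>
      pow_mem (Submonoid.subset_closure hx) k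
    by_contra hx2
    have hinj : Function.Injective fun k : ℕ => x ^ k :=
      injective_pow_iff_not_isOfFinOrder.2 hx2
    exact Set.infinite_univ ((hfin2.subset (Set.mapsTo_iff_image_subset.1 hpow)).of_finite_image
      hinj.injOn)
  have hcl := Subgroup.closure_toSubmonoid_of_isOfFinOrder hfo
  rw [hs] at hcl
  have huniv : (Set.univ : Set H).Finite := by
    have : (Set.univ : Set H) = ((Submonoid.closure (Set.range s) : Submonoid H) : Set H) := by
      rw [← hcl]
      rfl
    rw [this]
    exact hfin2
  exact Set.infinite_univ huniv

theorem Geo.pre_ne {s : ι → H} {l : List ι} (hl : Geo s l) {j : ℕ} (hj : j ≤ l.length)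
    (l' : List ι) (hl' : l'.length < j) : (l'.map s).prod ≠ pre s l j := by
  intro h
  refine hl (l' ++ l.drop j) ?_ ?_
  · rw [List.length_append, List.length_drop]
    omega
  · unfold pre at h
    rw [List.map_append, List.prod_append, h, List.map_drop, ← List.prod_append,
      List.take_append_drop]

theorem pre_eq (s : ι → H) (l : List ι) (j : ℕ) : pre s l j = ((l.take j).map s).prod := by
  unfold pre
  rw [List.map_take]

theorem Geo.pre_injOn {s : ι → H} {l : List ι} (hl : Geo s l) {i j : ℕ} (hi : i ≤ l.length)
    (hj : j ≤ l.length) (h : pre s l i = pre s l j) : i = j := by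
  rcases lt_trichotomy i j with hij | hij | hij
  · exfalso
    refine hl.pre_ne hj (l.take i) (by rw [List.length_take]; omega) ?_
    rw [← pre_eq, h]
  · exact hij
  · exfalso
    refine hl.pre_ne hi (l.take j) (by rw [List.length_take]; omega) ?_
    rw [← pre_eq, h]

open Classical in
/-- the number of visits -/
noncomputable def cnt (s : ι → H) (l : List ι) (x : H) : ℕ :=
  ∑ j ∈ Finset.range l.length, if pre s l j = x then 1 else 0

theorem cnt_cons (s : ι → H) (i : ι) (l : List ι) (x : H) : cnt s (i :: l) x =
    cnt s l ((s i)⁻¹ * x) + (open Classical in if x = 1 then 1 else 0) := by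
  classical
  unfold cnt
  rw [List.length_cons, Finset.sum_range_succ']
  congr 1
  · refine Finset.sum_congr rfl fun j _ => ?_
    have : pre s (i :: l) (j + 1) = x ↔ pre s l j = (s i)⁻¹ * x := by
      unfold pre
      rw [List.map_cons, List.take_succ_cons, List.prod_cons, eq_inv_mul_iff_mul_eq]
    simp only [this]
  · have : pre s (i :: l) 0 = x ↔ x = 1 := by
      unfold pre
      rw [List.take_zero, List.prod_nil, eq_comm]
    simp only [this]

open Classical in
/-- the elements `(δ₁(c), s i)` of the wreath product -/
noncomputable def yy (c : D) (s : ι → H) (i : ι) : D ≀ᵣ H := ⟨Pi.mulSingle 1 c, s i⟩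

theorem yy_prod (c : D) (s : ι → H) (l : List ι) :
    ((l.map (yy c s)).prod).right = (l.map s).prod ∧
      ∀ x, ((l.map (yy c s)).prod).left x = c ^ cnt s l x := by
  classical
  induction l with
  | nil => simp [cnt]
  | cons i l ih =>
    obtain ⟨h1, h2⟩ := ih
    refine ⟨?_, fun x => ?_⟩
    · rw [List.map_cons, List.prod_cons, RegularWreathProduct.mul_right, h1, List.map_cons,
        List.prod_cons]
      rfl
    · rw [List.map_cons, List.prod_cons, RegularWreathProduct.mul_left, Pi.mul_apply, h2,
        cnt_cons, add_comm, pow_add]
      congr 1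
      by_cases hx : x = 1
      · subst hx
        simp [yy]
      · simp [yy, hx]

/-- a geodesic word is determined by its length and its product in the wreath product -/
theorem Geo.unique {c : D} (hc : c ≠ 1) {s : ι → H} (hs : Function.Injective s) {l l' : List ι}
    (hl : Geo s l) (hlen : l'.length = l.length)
    (h : (l'.map (yy c s)).prod = (l.map (yy c s)).prod) : l' = l := by
  classical
  set n := l.length with hn
  have hr : pre s l' n = pre s l n := by
    have h1 := congrArg RegularWreathProduct.right h
    rw [(yy_prod c s l').1, (yy_prod c s l).1] at h1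
    unfold pre
    rw [List.take_of_length_le (by rw [List.length_map]; omega),
      List.take_of_length_le (by rw [List.length_map]), h1]
  have hone : ∀ j < n, cnt s l (pre s l j) = 1 := by
    intro j hj
    unfold cnt
    rw [Finset.sum_eq_single j]
    · simp
    · intro i hi hij
      rw [if_neg]
      intro h2
      exact hij (hl.pre_injOn (Finset.mem_range.1 hi).le hj.le h2)
    · intro h2
      exact absurd (Finset.mem_range.2 hj) h2
  have hex : ∀ j : Fin n, ∃ k : Fin n, pre s l' k = pre s l j := by
    intro j
    have h2 : c ^ cnt s l' (pre s l j) = c := by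
      rw [← (yy_prod c s l').2, h, (yy_prod c s l).2, hone j j.2, pow_one]
    have h3 : cnt s l' (pre s l j) ≠ 0 := by
      intro h4
      rw [h4, pow_zero] at h2
      exact hc h2.symm
    unfold cnt at h3
    obtain ⟨k, hk, hk2⟩ := Finset.exists_ne_zero_of_sum_ne_zero h3
    rw [Finset.mem_range, hlen] at hk
    refine ⟨⟨k, hk⟩, ?_⟩
    by_contra h4
    exact hk2 (if_neg h4)
  choose f hf using hex
  have hinj : Function.Injective f := by
    intro i j hij
    have h2 := hf i
    rw [hij, hf j] at h2
    exact Fin.ext (hl.pre_injOn i.2.le j.2.le h2.symm)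
  have hge : ∀ j, j ≤ f j := by
    intro j
    by_contra hlt
    push Not at hlt
    refine hl.pre_ne j.2.le (l'.take (f j)) ?_ ?_
    · rw [List.length_take]
      have : (f j : ℕ) < j := hlt
      omega
    · rw [← pre_eq]
      exact hf j
  have hid : ∀ j, f j = j := by
    have hbij : Function.Bijective f := Finite.injective_iff_bijective.1 hinj
    have hsum : ∑ j, ((f j : Fin n) : ℕ) = ∑ j : Fin n, (j : ℕ) :=
      Equiv.sum_comp (Equiv.ofBijective f hbij) fun j : Fin n => (j : ℕ)
    have h2 := (Finset.sum_eq_sum_iff_of_le (s := Finset.univ)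
      (f := fun j : Fin n => (j : ℕ)) (g := fun j => ((f j : Fin n) : ℕ))
      (fun j _ => hge j)).1 hsum.symm
    intro j
    exact Fin.ext (h2 j (Finset.mem_univ j)).symm
  have hpre : ∀ j ≤ n, pre s l' j = pre s l j := by
    intro j hj
    rcases hj.lt_or_eq with hj | rfl
    · have := hf ⟨j, hj⟩
      rwa [hid] at this
    · exact hr
  have hmap : l'.map s = l.map s := by
    refine List.ext_getElem (by rw [List.length_map, List.length_map, hlen]) fun j h1 h2 => ?_
    rw [List.length_map] at h2
    have e1 := List.prod_take_succ (l'.map s) j h1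
    have e2 := List.prod_take_succ (l.map s) j (by rwa [List.length_map])
    have e3 := hpre (j + 1) h2
    have e4 := hpre j h2.le
    unfold pre at e3 e4
    rw [e1, e2, e4] at e3
    exact mul_left_cancel e3
  exact List.map_injective_iff.2 hs hmap

end Pool.Agent.NilExt
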